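import Pool.Agent.U280.OE.Stm

/-!
# Project OE, package A2 (helper94): the integral of `psi (τ / s) ^ 2`
-/

set_option autoImplicit false

open MeasureTheory Set Filter Topology

namespace Pool.Agent.U94.OE.A2

open Pool.Agent.U280.OE

lemma psi_nonneg (t : ℝ) : 0 ≤ psi t := by
  unfold psi
  have h1 : (1 : ℝ) ≤ max 1 t := le_max_left _ _
  set v := max 1 t
  have hv : 0 < v := by linarith
  refine mul_nonneg (by positivity) ?_
  have h2 : 3 / v ^ 2 - 2 / v ^ 3 = (3 * v - 2) / v ^ 3 := by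
    field_simp
  rw [h2]
  exact div_nonneg (by linarith) (by positivity)

lemma psi_meas : Measurable psi := by
  unfold psi
  fun_prop

lemma psi_small {t : ℝ} (h : t ≤ 1) : psi t ^ 2 = 33 / 144 := by
  unfold psi
  rw [max_eq_left h, mul_pow, div_pow, Real.sq_sqrt (by norm_num)]
  norm_num

lemma psi_large {t : ℝ} (h : 1 ≤ t) : psi t ^ 2 = 33 / 144 * (9 / t ^ 4 - 12 / t ^ 5 + 4 / t ^ 6) := by
  unfold psi
  rw [max_eq_right h, mul_pow, div_pow, Real.sq_sqrt (by norm_num)]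
  have ht : t ≠ 0 := by linarith
  field_simp
  ring

/-- an antiderivative -/
noncomputable def g (t : ℝ) : ℝ := 33 / 144 * (-3 * (t ^ 3)⁻¹ + 3 * (t ^ 4)⁻¹ - 4 / 5 * (t ^ 5)⁻¹)

lemma g_deriv {t : ℝ} (h : 1 ≤ t) : HasDerivAt g (psi t ^ 2) t := by
  have ht : t ≠ 0 := by linarith
  rw [psi_large h]
  have d : ∀ n : ℕ, HasDerivAt (fun t : ℝ => (t ^ n)⁻¹) (-(n * t ^ (n - 1)) / (t ^ n) ^ 2) t := fun n =>
    (hasDerivAt_pow n t).inv (pow_ne_zero _ ht)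
  have h1 := (((d 3).const_mul (-3 : ℝ)).add ((d 4).const_mul (3 : ℝ))).sub ((d 5).const_mul (4 / 5 : ℝ))
  have h2 := h1.const_mul (33 / 144 : ℝ)
  refine h2.congr_deriv ?_
  push_cast
  field_simp
  ring

lemma g_lim : Tendsto g atTop (𝓝 0) := by
  have d : ∀ n : ℕ, n ≠ 0 → Tendsto (fun t : ℝ => (t ^ n)⁻¹) atTop (𝓝 0) := fun n hn =>
    tendsto_inv_atTop_zero.comp (tendsto_pow_atTop hn)
  have h := ((((d 3 (by norm_num)).const_mul (-3 : ℝ)).add ((d 4 (by norm_num)).const_mul (3 : ℝ))).sub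
    ((d 5 (by norm_num)).const_mul (4 / 5 : ℝ))).const_mul (33 / 144 : ℝ)
  have e : (33 / 144 : ℝ) * (-3 * 0 + 3 * 0 - 4 / 5 * 0) = 0 := by norm_num
  rw [e] at h
  exact h

lemma int_large : IntegrableOn (fun t => psi t ^ 2) (Ioi 1) ∧ ∫ t in Ioi (1 : ℝ), psi t ^ 2 = 33 / 180 := by
  have hd : ∀ x ∈ Ici (1 : ℝ), HasDerivAt g (psi x ^ 2) x := fun x hx => g_deriv hx
  have hp : ∀ x ∈ Ioi (1 : ℝ), 0 ≤ psi x ^ 2 := fun x _ => sq_nonneg _
  refine ⟨integrableOn_Ioi_deriv_of_nonneg' hd hp g_lim, ?_⟩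
  rw [integral_Ioi_of_hasDerivAt_of_nonneg' hd hp g_lim, g]
  norm_num

lemma int_small : IntegrableOn (fun t => psi t ^ 2) (Ioc 0 1) ∧ ∫ t in Ioc (0 : ℝ) 1, psi t ^ 2 = 33 / 144 := by
  have e : EqOn (fun t => psi t ^ 2) (fun _ => (33 / 144 : ℝ)) (Ioc 0 1) := fun t ht => psi_small ht.2
  constructor
  · refine IntegrableOn.congr_fun ?_ e.symm measurableSet_Ioc
    simp
  · rw [setIntegral_congr_fun measurableSet_Ioc e]
    simp

lemma int_all : IntegrableOn (fun t => psi t ^ 2) (Ioi 0) ∧ ∫ t in Ioi (0 : ℝ), psi t ^ 2 = 33 / 80 := by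
  have hu : Ioi (0 : ℝ) = Ioc 0 1 ∪ Ioi 1 := (Ioc_union_Ioi_eq_Ioi zero_le_one).symm
  obtain ⟨h1, h2⟩ := int_small
  obtain ⟨h3, h4⟩ := int_large
  rw [hu]
  refine ⟨h1.union h3, ?_⟩
  rw [setIntegral_union (by
    rw [Set.disjoint_left]
    intro x hx hx'
    exact absurd hx.2 (not_le.2 hx')) measurableSet_Ioi h1 h3, h2, h4]
  norm_num

theorem t_A2 : T_A2 := by
  refine ⟨psi_nonneg, psi_meas, fun s hs => ?_⟩
  obtain ⟨h1, h2⟩ := int_all
  have hs' : 0 < s⁻¹ := inv_pos.2 hs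
  have e : (fun τ : ℝ => psi (τ / s) ^ 2) = fun τ => (fun t => psi t ^ 2) (s⁻¹ * τ) := by
    funext τ
    rw [div_eq_inv_mul]
  rw [e]
  constructor
  · rw [integrableOn_Ioi_comp_mul_left_iff (fun t => psi t ^ 2) 0 hs', mul_zero]
    exact h1
  · rw [integral_comp_mul_left_Ioi (fun t => psi t ^ 2) 0 hs', mul_zero, h2, inv_inv, smul_eq_mul]

end Pool.Agent.U94.OE.A2
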